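import Pool.Agent.Helper17.SV.Stmts

/-! Module CO (MP_c38931_co): the average over a coset. -/

set_option autoImplicit false

open Finset

namespace Pool.Agent.Helper17.SV

open Pool.Agent.Helper17.SO

theorem co_card {X : Type} [Fintype X] [DecidableEq X] (N : Subgroup (Equiv.Perm X)) [Fintype N]
    (x x' y y' : X) (b c : Equiv.Perm X) (hb : b ∈ N) (hc : c ∈ N) (h1 : b x = y)
    (h2 : c x' = y') :
    (univ.filter (fun a : N => a.1 x = x')).card = (univ.filter (fun a : N => a.1 y = y')).card := by
  refine Finset.card_bij (fun a _ => (⟨c, hc⟩ : N) * a * (⟨b, hb⟩ : N)⁻¹) ?_ ?_ ?_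
  · intro a ha
    rw [mem_filter] at ha ⊢
    refine ⟨mem_univ _, ?_⟩
    show (c * a.1 * b⁻¹) y = y'
    rw [← h1, ← h2, ← ha.2]
    simp [Equiv.Perm.mul_apply]
  · intro a _ a' _ h
    exact mul_left_cancel (mul_right_cancel h)
  · intro a ha
    rw [mem_filter] at ha
    refine ⟨(⟨c, hc⟩ : N)⁻¹ * a * (⟨b, hb⟩ : N), ?_, ?_⟩
    · rw [mem_filter]
      refine ⟨mem_univ _, ?_⟩
      show (c⁻¹ * a.1 * b) x = x'
      rw [Equiv.Perm.mul_apply, Equiv.Perm.mul_apply, h1, ha.2, ← h2]
      simp
    · group

theorem st_CO : ST_CO := by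
  classical
  intro X _ N g l hl hl2 hgN hN hcc Y _ π h hsurj hπ hh hodd
  obtain ⟨c, hc⟩ := hcc
  have hF : Fact l.Prime := ⟨hl⟩
  -- the orders
  have hord : ∀ a ∈ N, ∃ r, (g * a) ^ l ^ r = 1 := by
    intro a ha
    have h1 : ∀ k : ℕ, ∃ b ∈ N, (g * a) ^ k = b * g ^ k := by
      intro k
      induction k with
      | zero => exact ⟨1, N.one_mem, by simp⟩
      | succ k ih =>
        obtain ⟨b, hb, h2⟩ := ih
        refine ⟨g * (a * b) * g⁻¹, hgN _ (N.mul_mem ha hb), ?_⟩
        rw [pow_succ', h2, pow_succ']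
        group
    obtain ⟨b, hb, h2⟩ := h1 (l ^ c)
    obtain ⟨r, hr⟩ := hN b hb
    refine ⟨c + r, ?_⟩
    rw [pow_add, pow_mul, h2, hc, mul_one, hr]
  -- `N` has odd order
  have hcardN : Odd (Fintype.card N) := by
    have h1 : IsPGroup l N := by
      intro a
      obtain ⟨r, hr⟩ := hN a.1 a.2
      exact ⟨r, Subtype.ext (by simpa using hr)⟩
    obtain ⟨n, hn⟩ := (IsPGroup.iff_card (p := l) (G := N)).1 h1
    rw [Nat.card_eq_fintype_card] at hn
    rw [hn]
    exact (hl.odd_of_ne_two hl2).pow
  have hnf : ∀ (Z : Type) [Fintype Z] (f : Equiv.Perm Z),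
      nfix f = (univ.filter (fun z => f z = z)).card := by
    intro Z _ f
    rw [nfix, Nat.card_eq_fintype_card, Fintype.card_subtype]
  -- double counting
  have h1 : ∑ a : N, nfix (g * a.1) =
      ∑ x : X, (univ.filter (fun a : N => g (a.1 x) = x)).card := by
    have e1 : ∀ a : N, nfix (g * a.1) = ∑ x : X, if g (a.1 x) = x then 1 else 0 := by
      intro a
      rw [hnf, Finset.card_filter]
      rfl
    have e2 : ∀ x : X, (univ.filter (fun a : N => g (a.1 x) = x)).card =
        ∑ a : N, if g (a.1 x) = x then 1 else 0 := by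
      intro x
      rw [Finset.card_filter]
    simp_rw [e1, e2]
    exact Finset.sum_comm
  have h2 : ∑ x : X, (univ.filter (fun a : N => g (a.1 x) = x)).card =
      ∑ y : Y, ∑ x ∈ univ.filter (fun x => π x = y),
        (univ.filter (fun a : N => g (a.1 x) = x)).card := by
    exact (Finset.sum_fiberwise _ _ _).symm
  have h3 : ∀ y : Y, ∑ x ∈ univ.filter (fun x => π x = y),
      (univ.filter (fun a : N => g (a.1 x) = x)).card = if h y = y then Fintype.card N else 0 := by
    intro y
    split_ifs with hy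
    · obtain ⟨x0, hx0⟩ := hsurj y
      have e1 : ∀ x ∈ univ.filter (fun x => π x = y),
          (univ.filter (fun a : N => g (a.1 x) = x)).card =
          (univ.filter (fun a : N => a.1 x0 = x)).card := by
        intro x hx
        rw [mem_filter] at hx
        have e2 : (univ.filter (fun a : N => g (a.1 x) = x)).card =
            (univ.filter (fun a : N => a.1 x = g⁻¹ x)).card := by
          congr 1
          ext a
          simp only [mem_filter, mem_univ, true_and]
          exact Equiv.Perm.eq_inv_iff_eq.symm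
        rw [e2]
        have e3 : π (g⁻¹ x) = y := by
          have e4 : h (π (g⁻¹ x)) = h y := by
            rw [hh, hy]
            simp [hx.2]
          exact h.injective e4
        obtain ⟨b, hb, hb'⟩ := (hπ x x0).1 (by rw [hx.2, hx0])
        obtain ⟨d, hd, hd'⟩ := (hπ (g⁻¹ x) x).1 (by rw [hx.2, e3])
        exact co_card N x (g⁻¹ x) x0 x b d hb hd hb' hd'
      rw [Finset.sum_congr rfl e1]
      have e5 := Finset.card_eq_sum_card_fiberwise (f := fun a : N => a.1 x0)
        (s := univ) (t := univ.filter (fun x => π x = y)) (by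
          intro a _
          rw [Finset.mem_coe, mem_filter]
          refine ⟨mem_univ _, ?_⟩
          have e6 : π x0 = π (a.1 x0) := (hπ x0 (a.1 x0)).2 ⟨a.1, a.2, rfl⟩
          show π (a.1 x0) = y
          rw [← e6, hx0])
      rw [Finset.card_univ] at e5
      exact e5.symm
    · refine Finset.sum_eq_zero fun x hx => ?_
      rw [mem_filter] at hx
      rw [Finset.card_eq_zero, Finset.filter_eq_empty_iff]
      intro a _ h4
      apply hy
      have e6 : π x = π (a.1 x) := (hπ x (a.1 x)).2 ⟨a.1, a.2, rfl⟩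
      rw [← hx.2]
      calc h (π x) = h (π (a.1 x)) := by rw [e6]
        _ = π (g (a.1 x)) := hh _
        _ = π x := by rw [h4]
  have key : ∑ a : N, nfix (g * a.1) = nfix h * Fintype.card N := by
    rw [h1, h2, Finset.sum_congr rfl (fun y _ => h3 y), ← Finset.sum_filter, Finset.sum_const,
      ← hnf, smul_eq_mul]
  have h4 : Odd (∑ a : N, nfix (g * a.1)) := by
    rw [Finset.odd_sum_iff_odd_card_odd]
    have e1 : univ.filter (fun a : N => Odd (nfix (g * a.1))) = univ := by
      rw [Finset.filter_eq_self]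
      intro a _
      exact hodd a.1 a.2 (hord a.1 a.2)
    rw [e1, Finset.card_univ]
    exact hcardN
  rw [key] at h4
  exact (Nat.odd_mul.1 h4).1

end Pool.Agent.Helper17.SV
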