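import Pool.Agent.Helper17.SV.Stmts

/-! Module ORB (MP_c38931_co): representatives of the orbits of an element of prime power order. -/

set_option autoImplicit false

open Finset

namespace Pool.Agent.Helper17.SV

open Pool.Agent.Helper17.SO

/-- the relation of lying in the same orbit -/
def orb_setoid {v N : ℕ} (g : Equiv.Perm (Fin v)) (hq : 1 ≤ N) (hg : g ^ N = 1) :
    Setoid (Fin v) where
  r a b := ∃ m : ℕ, (g ^ m) a = b
  iseqv := by
    refine ⟨fun a => ⟨0, by simp⟩, ?_, ?_⟩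
    · rintro a b ⟨m, rfl⟩
      refine ⟨(N - 1) * m, ?_⟩
      rw [← Equiv.Perm.mul_apply, ← pow_add]
      have h1 : (N - 1) * m + m = N * m := by
        obtain ⟨q', rfl⟩ : ∃ q', N = q' + 1 := ⟨N - 1, by omega⟩
        simp
        ring
      rw [h1, pow_mul, hg, one_pow, Equiv.Perm.one_apply]
    · rintro a b c ⟨m, rfl⟩ ⟨m', rfl⟩
      exact ⟨m' + m, by rw [pow_add, Equiv.Perm.mul_apply]⟩

theorem st_ORB : ST_ORB := by
  classical
  intro v q r g hq hg
  have hN : 1 ≤ q ^ r := Nat.one_le_pow _ _ hq.pos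
  let s := orb_setoid g hN hg
  -- the periods
  have hper : ∀ a, ∃ e ≤ r, Function.minimalPeriod g a = q ^ e := by
    intro a
    have h1 : Function.minimalPeriod g a ∣ q ^ r := by
      apply Function.IsPeriodicPt.minimalPeriod_dvd
      change g^[q ^ r] a = a
      rw [Equiv.Perm.iterate_eq_pow, hg, Equiv.Perm.one_apply]
    obtain ⟨e, he, h2⟩ := (Nat.dvd_prime_pow hq).1 h1
    exact ⟨e, he, h2⟩
  choose E hE1 hE2 using hper
  have hEpos : ∀ a, g a ≠ a → 1 ≤ E a := by
    intro a ha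
    by_contra h
    have h0 : E a = 0 := by omega
    have h1 := hE2 a
    rw [h0, pow_zero] at h1
    exact ha (Function.minimalPeriod_eq_one_iff_isFixedPt.1 h1)
  have hpp : ∀ a, (g ^ q ^ E a) a = a := by
    intro a
    have h1 : g^[Function.minimalPeriod g a] a = a := Function.iterate_minimalPeriod
    rwa [hE2, Equiv.Perm.iterate_eq_pow] at h1
  have hfix : ∀ (t : ℕ) (a : Fin v), g ((g ^ t) a) = (g ^ t) a ↔ g a = a := by
    intro t a
    rw [← Equiv.Perm.mul_apply, ← pow_succ', pow_succ, Equiv.Perm.mul_apply]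
    exact (g ^ t).injective.eq_iff
  let Y := {c : Quotient s // g (Quotient.out c) ≠ Quotient.out c}
  let ε : Fin (Fintype.card Y) ≃ Y := (Fintype.equivFin Y).symm
  let x : Fin (Fintype.card Y) → Fin v := fun i => Quotient.out (ε i).1
  have hx : ∀ i, g (x i) ≠ x i := fun i => (ε i).2
  have h3 : ∀ a, g a ≠ a ↔ ∃ i, ∃ t < q ^ E (x i), (g ^ t) (x i) = a := by
    intro a
    constructor
    · intro ha
      have h1 : s (Quotient.out (Quotient.mk s a)) a := Quotient.exact (Quotient.out_eq _)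
      obtain ⟨m, hm⟩ := h1
      have h2 : g (Quotient.out (Quotient.mk s a)) ≠ Quotient.out (Quotient.mk s a) := by
        intro h
        apply ha
        rw [← hm]
        exact (hfix m _).2 h
      refine ⟨ε.symm ⟨Quotient.mk s a, h2⟩,
        m % q ^ E (x (ε.symm ⟨Quotient.mk s a, h2⟩)), ?_, ?_⟩
      · exact Nat.mod_lt _ (pow_pos hq.pos _)
      · have h4 : x (ε.symm ⟨Quotient.mk s a, h2⟩) = Quotient.out (Quotient.mk s a) := by
          simp only [x, Equiv.apply_symm_apply]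
        have h5 : (g ^ m) (Quotient.out (Quotient.mk s a)) = a := hm
        rw [h4, ← hE2, ← Equiv.Perm.iterate_eq_pow, Function.iterate_mod_minimalPeriod_eq,
          Equiv.Perm.iterate_eq_pow]
        exact h5
    · rintro ⟨i, t, _, rfl⟩ h
      exact hx i ((hfix t _).1 h)
  have h4 : ∀ i j t t', t < q ^ E (x i) → t' < q ^ E (x j) →
      (g ^ t) (x i) = (g ^ t') (x j) → i = j ∧ t = t' := by
    intro i j t t' ht ht' h
    have h1 : s (Quotient.out (ε i).1) (Quotient.out (ε j).1) := by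
      have e2 : s (Quotient.out (ε i).1) ((g ^ t) (x i)) := ⟨t, rfl⟩
      have e3 : s (Quotient.out (ε j).1) ((g ^ t) (x i)) := ⟨t', h.symm⟩
      exact s.trans' e2 (s.symm' e3)
    have h2 : (ε i).1 = (ε j).1 := Quotient.out_equiv_out.1 h1
    have h5 : i = j := ε.injective (Subtype.ext h2)
    subst h5
    refine ⟨rfl, ?_⟩
    rw [← Equiv.Perm.iterate_eq_pow, ← Equiv.Perm.iterate_eq_pow] at h
    refine (Function.iterate_eq_iterate_iff_of_lt_minimalPeriod ?_ ?_).1 h
    · rwa [hE2]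
    · rwa [hE2]
  refine ⟨Fintype.card Y, x, fun i => E (x i), fun i => ⟨hEpos _ (hx i), hE1 _⟩,
    fun i => hpp _, h3, h4, ?_⟩
  -- the count
  have h5 : Fintype.card ((i : Fin (Fintype.card Y)) × Fin (q ^ E (x i))) =
      Fintype.card {a : Fin v // ¬ g a = a} := by
    refine Fintype.card_of_bijective
      (f := fun p => ⟨(g ^ p.2.1) (x p.1), (h3 _).2 ⟨p.1, p.2.1, p.2.2, rfl⟩⟩) ⟨?_, ?_⟩
    · rintro ⟨i, t⟩ ⟨j, t'⟩ h
      have h' : (g ^ t.1) (x i) = (g ^ t'.1) (x j) := congrArg Subtype.val h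
      obtain ⟨rfl, h6⟩ := h4 i j t.1 t'.1 t.2 t'.2 h'
      have h7 : t = t' := Fin.ext h6
      rw [h7]
    · rintro ⟨a, ha⟩
      obtain ⟨i, t, ht, h6⟩ := (h3 a).1 ha
      exact ⟨⟨i, ⟨t, ht⟩⟩, Subtype.ext h6⟩
  have h6 : Fintype.card ((i : Fin (Fintype.card Y)) × Fin (q ^ E (x i))) =
      ∑ i, q ^ E (x i) := by
    rw [Fintype.card_sigma]
    exact Finset.sum_congr rfl (fun i _ => Fintype.card_fin _)
  have h7 : Fintype.card {a : Fin v // g a = a} + Fintype.card {a : Fin v // ¬ g a = a} = v := by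
    rw [Fintype.card_subtype_compl]
    have h8 := Fintype.card_subtype_le (fun a : Fin v => g a = a)
    rw [Fintype.card_fin] at h8 ⊢
    omega
  have h8 : nfix g = Fintype.card {a : Fin v // g a = a} := by
    rw [nfix, Nat.card_eq_fintype_card]
  rw [h8, ← h6, h5, h7]

end Pool.Agent.Helper17.SV
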