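import Pool.Agent.Helper17.SV.Stmts

/-! Module PB (MP_c38931_co): Burnside's lemma modulo `2 (l - 1)` for an `l`-group. -/

set_option autoImplicit false

open Finset

namespace Pool.Agent.Helper17.SV

open Pool.Agent.Helper17.SO

/-- the number of generators of a cyclic subgroup -/
theorem pb_gen {P : Type} [Group P] [Finite P] (g : P) :
    Nat.card {a : P // Subgroup.zpowers a = Subgroup.zpowers g} = (orderOf g).totient := by
  classical
  have hPf : Fintype P := Fintype.ofFinite P
  rw [Nat.card_eq_fintype_card, Fintype.card_subtype]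
  have h0 : Fintype.card (Subgroup.zpowers g) = orderOf g := Fintype.card_zpowers
  have h1 : (univ.filter (fun a : Subgroup.zpowers g => orderOf a = orderOf g)).card =
      (orderOf g).totient := by
    have h2 := IsCyclic.card_orderOf_eq_totient (α := Subgroup.zpowers g) (d := orderOf g)
      (by rw [h0])
    exact h2
  rw [← h1]
  refine (Finset.card_bij (fun a _ => a.1) ?_ ?_ ?_).symm
  · intro a ha
    rw [mem_filter] at ha ⊢
    refine ⟨mem_univ _, ?_⟩
    apply Subgroup.eq_of_le_of_card_ge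
    · rw [Subgroup.zpowers_le]
      exact a.2
    · rw [Nat.card_zpowers, Nat.card_zpowers, Subgroup.orderOf_coe, ha.2]
  · intro a _ b _ h
    exact Subtype.ext h
  · intro a ha
    rw [mem_filter] at ha
    refine ⟨⟨a, ?_⟩, ?_, rfl⟩
    · rw [← ha.2]
      exact Subgroup.mem_zpowers a
    · rw [mem_filter]
      refine ⟨mem_univ _, ?_⟩
      rw [← Subgroup.orderOf_coe, ← Nat.card_zpowers, ← Nat.card_zpowers]
      show Nat.card (Subgroup.zpowers a) = _
      rw [ha.2]

theorem pb_pow (m : ℤ) (hm : 2 ∣ m) (N : ℕ) : ∃ j : ℤ, (1 + m) ^ N = 1 + N * m + 2 * m * j := by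
  obtain ⟨k, rfl⟩ := hm
  induction N with
  | zero => exact ⟨0, by simp⟩
  | succ N ih =>
    obtain ⟨j, hj⟩ := ih
    refine ⟨j * (1 + 2 * k) + N * k, ?_⟩
    rw [pow_succ, hj]
    push_cast
    ring

theorem st_PB : ST_PB := by
  classical
  intro P _ _ X _ _ l hl hl2 hP hodd
  have hF : Fact l.Prime := ⟨hl⟩
  have hPf : Fintype P := Fintype.ofFinite P
  have hXf : Fintype X := Fintype.ofFinite X
  have hQf : Fintype (MulAction.orbitRel.Quotient P X) := Fintype.ofFinite _
  set f : P → ℕ := fun g => Nat.card {x : X // g • x = x} with hf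
  obtain ⟨N, hN⟩ := (IsPGroup.iff_card (p := l) (G := P)).1 hP
  -- Burnside
  have hB : ∑ g : P, f g = Nat.card (MulAction.orbitRel.Quotient P X) * Nat.card P := by
    have h1 := MulAction.sum_card_fixedBy_eq_card_orbits_mul_card_group P X
    rw [Nat.card_eq_fintype_card, Nat.card_eq_fintype_card]
    refine Eq.trans ?_ h1
    refine Finset.sum_congr rfl fun g _ => ?_
    rw [← Nat.card_eq_fintype_card]
    rfl
  -- parity of `l - 1`
  have hl1 : (2 : ℤ) ∣ (l : ℤ) - 1 := by
    have h1 := hl.odd_of_ne_two hl2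
    obtain ⟨k, hk⟩ := h1
    exact ⟨k, by rw [hk]; push_cast; ring⟩
  have hl3 : 2 ∣ l - 1 := by
    obtain ⟨k, hk⟩ := hl.odd_of_ne_two hl2
    exact ⟨k, by omega⟩
  -- the sum of `f g - 1` over `g ≠ 1`
  have h1 : (2 * ((l : ℤ) - 1)) ∣ ∑ g ∈ univ.filter (fun g : P => g ≠ 1), ((f g : ℤ) - 1) := by
    rw [← Finset.sum_fiberwise (univ.filter (fun g : P => g ≠ 1))
      (fun g => Subgroup.zpowers g) (fun g => (f g : ℤ) - 1)]
    refine Finset.dvd_sum fun C _ => ?_
    by_cases hC : ∃ g0 : P, g0 ≠ 1 ∧ Subgroup.zpowers g0 = C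
    · obtain ⟨g0, hg0, hC0⟩ := hC
      have e1 : (univ.filter (fun g : P => g ≠ 1)).filter (fun g => Subgroup.zpowers g = C) =
          univ.filter (fun a : P => Subgroup.zpowers a = Subgroup.zpowers g0) := by
        ext a
        simp only [mem_filter, mem_univ, true_and]
        rw [hC0]
        constructor
        · exact fun h => h.2
        · intro h
          refine ⟨?_, h⟩
          rintro rfl
          rw [← hC0, Subgroup.zpowers_one_eq_bot] at h
          exact hg0 (Subgroup.zpowers_eq_bot.1 h.symm)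
      rw [e1]
      have e2 : ∀ a ∈ univ.filter (fun a : P => Subgroup.zpowers a = Subgroup.zpowers g0),
          (f a : ℤ) - 1 = (f g0 : ℤ) - 1 := by
        intro a ha
        rw [mem_filter] at ha
        have e3 : ∀ b c : P, Subgroup.zpowers b ≤ Subgroup.zpowers c → ∀ x : X,
            c • x = x → b • x = x := by
          intro b c hbc x hx
          have h5 : c ∈ MulAction.stabilizer P x := hx
          have h6 : Subgroup.zpowers c ≤ MulAction.stabilizer P x := Subgroup.zpowers_le.2 h5
          exact h6 (hbc (Subgroup.mem_zpowers b))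
        have e4 : f a = f g0 := by
          simp only [hf]
          refine Nat.card_congr (Equiv.subtypeEquivRight fun x => ⟨?_, ?_⟩)
          · exact e3 _ _ ha.2.ge x
          · exact e3 _ _ ha.2.le x
        rw [e4]
      have e9 : (univ.filter (fun a : P => Subgroup.zpowers a = Subgroup.zpowers g0)).card =
          (orderOf g0).totient := by
        rw [← pb_gen g0, Nat.card_eq_fintype_card, Fintype.card_subtype]
      rw [Finset.sum_congr rfl e2, Finset.sum_const, e9, nsmul_eq_mul]
      have e5 : (l - 1) ∣ (orderOf g0).totient := by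
        obtain ⟨k, hk⟩ := hP g0
        obtain ⟨c, hc, hc2⟩ := (Nat.dvd_prime_pow hl).1 (orderOf_dvd_of_pow_eq_one hk)
        have hc0 : c ≠ 0 := by
          rintro rfl
          rw [pow_zero, orderOf_eq_one_iff] at hc2
          exact hg0 hc2
        rw [hc2, Nat.totient_prime_pow hl (Nat.pos_of_ne_zero hc0)]
        exact dvd_mul_left _ _
      have e6 : ((l : ℤ) - 1) ∣ ((orderOf g0).totient : ℤ) := by
        have e7 : (((l - 1 : ℕ)) : ℤ) = (l : ℤ) - 1 := by
          rw [Nat.cast_sub hl.one_lt.le, Nat.cast_one]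
        rw [← e7]
        exact_mod_cast e5
      have e8 : (2 : ℤ) ∣ (f g0 : ℤ) - 1 := by
        obtain ⟨k, hk⟩ := hodd g0
        refine ⟨k, ?_⟩
        simp only [hf]
        rw [hk]
        push_cast
        ring
      rw [mul_comm 2 ((l : ℤ) - 1)]
      exact mul_dvd_mul e6 e8
    · have e1 : (univ.filter (fun g : P => g ≠ 1)).filter (fun g => Subgroup.zpowers g = C) =
          ∅ := by
        rw [Finset.filter_eq_empty_iff]
        intro a ha hb
        rw [mem_filter] at ha
        exact hC ⟨a, ha.2, hb⟩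
      rw [e1, Finset.sum_empty]
      exact dvd_zero _
  -- the whole sum
  have h2 : (∑ g : P, f g : ℤ) = Nat.card X +
      (∑ g ∈ univ.filter (fun g : P => g ≠ 1), ((f g : ℤ) - 1)) + ((Nat.card P : ℤ) - 1) := by
    have e1 : (∑ g : P, f g : ℤ) = ∑ g : P, ((f g : ℤ) - 1) + Nat.card P := by
      rw [Finset.sum_sub_distrib, Finset.sum_const, Finset.card_univ, Nat.card_eq_fintype_card]
      simp
    have e2 : ∑ g : P, ((f g : ℤ) - 1) = ((f 1 : ℤ) - 1) +
        ∑ g ∈ univ.filter (fun g : P => g ≠ 1), ((f g : ℤ) - 1) := by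
      rw [← Finset.add_sum_erase univ (fun g : P => (f g : ℤ) - 1) (mem_univ 1)]
      congr 2
      ext a
      simp
    have e3 : f 1 = Nat.card X := by
      simp only [hf]
      refine Nat.card_congr ?_
      exact Equiv.subtypeUnivEquiv (fun x => one_smul P x)
    rw [e1, e2, e3]
    ring
  obtain ⟨j1, hj1⟩ := h1
  obtain ⟨j2, hj2⟩ := pb_pow ((l : ℤ) - 1) hl1 N
  have h3 : (Nat.card P : ℤ) = 1 + N * ((l : ℤ) - 1) + 2 * ((l : ℤ) - 1) * j2 := by
    rw [← hj2, hN]
    push_cast
    ring
  have h4 : (∑ g : P, f g : ℤ) = (Nat.card (MulAction.orbitRel.Quotient P X) : ℤ) *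
      Nat.card P := by
    exact_mod_cast hB
  rw [hj1] at h2
  -- oddness
  have h5 : Odd (Nat.card X) := by
    have e1 := hodd 1
    have e3 : Nat.card {x : X // (1 : P) • x = x} = Nat.card X :=
      Nat.card_congr (Equiv.subtypeUnivEquiv (fun x => one_smul P x))
    rwa [e3] at e1
  set o : ℤ := (Nat.card (MulAction.orbitRel.Quotient P X) : ℤ) with ho
  set m : ℤ := (l : ℤ) - 1 with hm
  have h6 : (Nat.card X : ℤ) - o = (o - 1) * (N * m) + 2 * m * (o * j2 - j1 - j2) := by
    have e1 := h2.symm.trans h4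
    rw [h3] at e1
    linear_combination e1
  obtain ⟨k, hk⟩ := hl1
  obtain ⟨a, ha⟩ := h5
  have h7 : (Nat.card X : ℤ) = 2 * a + 1 := by rw [ha]; push_cast; ring
  have h8 : ∃ b : ℤ, o - 1 = 2 * b := by
    refine ⟨a - (o - 1) * (N * k) - 2 * k * (o * j2 - j1 - j2), ?_⟩
    have : o = Nat.card X - ((o - 1) * (N * m) + 2 * m * (o * j2 - j1 - j2)) := by
      linarith
    rw [h7, hk] at this
    linear_combination this
  obtain ⟨b, hb⟩ := h8
  have h9 : (Nat.card X : ℤ) - o = 2 * m * (b * N + o * j2 - j1 - j2) := by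
    rw [h6, hb]
    ring
  have h10 : ((2 * (l - 1) : ℕ) : ℤ) = 2 * m := by
    rw [hm]
    push_cast
    rw [Nat.cast_sub hl.one_lt.le, Nat.cast_one]
  apply Nat.ModEq.symm
  rw [Nat.modEq_iff_dvd, h10]
  exact ⟨_, h9⟩

end Pool.Agent.Helper17.SV
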